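import Pool.Agent.Helper6.LP.All
import Pool.Agent.Helper6.LPA.Fn
import Pool.Agent.Helper16.LPA.M_FLQ
import Pool.Agent.Helper80.LPA.M_SVQ
import Pool.Agent.Helper56.LPA.M_WTS
import Pool.Agent.Helper7.LPA.M_MAS
import Pool.Agent.Helper70.LPA.M_CMB
import Pool.Agent.Helper2.LPA.M_ONQ
import Pool.Agent.Helper44.LPA.M_PRQ
import Pool.Agent.Helper41.LPA.M_GGL
import Pool.Agent.Helper9.LPA.M_MOR
import Pool.Agent.Helper36.LPA.M_DIA
import Pool.Agent.Helper21.LPA.M_OFF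
import Pool.Agent.Helper8.LPA.M_DDB
import Pool.Agent.Helper3.LPA.M_MSR
import Pool.Agent.Helper63.LPA.M_XPX
import Pool.Agent.Helper11.LPA.M_CHU
import Pool.Agent.Helper63.LPA.M_CHR

/-!
# Project LPA: assembly
-/

set_option autoImplicit false

namespace Pool.Agent.Helper6.LPA

open Pool.Agent
open Finset
open Pool.Agent.Helper6.LP

theorem qSVQ : StSVQ := Helper80.LPA.hSVQ Helper16.LPA.hFLQ

theorem qWTS : StWTS := Helper56.LPA.hWTS

theorem qMAS : StMAS := Helper7.LPA.hMAS Helper15.AB.hMT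

theorem qGGL : StGGL := Helper41.LPA.hGGL qMAS pLOP Helper70.LPA.hCMB

theorem qONQ : StONQ := Helper2.LPA.hONQ pLOP

theorem qPRQ : StPRQ := Helper44.LPA.hPRQ pLOP

theorem qMOR : StMOR := Helper9.LPA.hMOR qONQ qGGL

theorem qDIA : StDIA := Helper36.LPA.hDIA qONQ qGGL

theorem qOFF : StOFF := Helper21.LPA.hOFF qPRQ qGGL

theorem qMSR : StMSR := Helper3.LPA.hMSR qDIA qOFF qGGL Helper8.LPA.hDDB pGAP

theorem qCHU : StCHU := Helper11.LPA.hCHU qMOR qMSR qGGL Helper63.LPA.hXPX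

theorem qCHR : StCHR := Helper63.LPA.hCHR qCHU qWTS qSVQ pTGO pVLP

open Classical in
theorem qFNR : ∃ κ : ℝ, 0 < κ ∧ ∀ ε : ℝ, 0 < ε → ∃ C : ℝ, 0 < C ∧ ∃ N₀ : ℕ, ∀ N : ℕ, N₀ ≤ N →
    (((Icc 1 N).filter (fun n => ¬ Goodk C κ n)).card : ℝ) ≤ ε * N :=
  hFNR qCHR Helper69.LP.hRRP

end Pool.Agent.Helper6.LPA
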