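import Pool.Agent.Helper6.LP.St

/-!
# Project LPA (MP_5e9b96_nt): as project LP, with an exponent that does not depend on `ε`
LP (closed) gives for every `ε` constants `C`, `κ`: for all but `ε N` of the `n ≤ N` some `y ≤ C (log n) ^ 2` is such that all prime factors of the two numbers are at least `n ^ κ`. Here `κ` is absolute. Statements of the modules, with proofs.

The primes in `(p, z]`, `z ^ B ≤ w < (z + 1) ^ B`, are treated as in LP, with the fundamental lemma with the relative error `η / B ^ 12` (it decreases faster than every power of the level `B`); the primes in `(z, w]` by the lower bound sieve weights `(-1) ^ |T|`, `T ∈ F`, of a fixed level `w ^ B₁` (Brun and Hooley, `fam0 ∪ fam1` of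
`Pool/Agent/Helper18/TR`). As `z` is a power of `M`, no prime `l > z` divides `DD y y'`, and the sums over the weights are bounded by powers of `B`.
-/

set_option autoImplicit false

noncomputable section

namespace Pool.Agent.Helper6.LPA

open Finset
open Pool.Agent.Helper15.AB (StMT)
open Pool.Agent.Helper98.LM (QQ)
open Pool.Agent.Helper6.LP

open Classical in
/-- `F`: lower bound sieve weights `(-1) ^ |T|`, `T ∈ F`, of level `w ^ B` for the primes of `Q` -/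
def Wt (B w : ℕ) (Q : Finset ℕ) (F : Finset (Finset ℕ)) : Prop :=
  (∀ T ∈ F, T ⊆ Q ∧ ∏ l ∈ T, l ≤ w ^ B) ∧ F.card ≤ w ^ B ∧
  (∀ E : ℕ → Prop, ∑ T ∈ F, (-1 : ℝ) ^ T.card * (if ∀ l ∈ T, E l then 1 else 0) ≤ if ∀ l ∈ Q, ¬ E l then 1 else 0) ∧
  ∀ g : ℕ → ℝ, (∀ l ∈ Q, 0 ≤ g l ∧ g l ≤ 3 / l ∧ g l ≤ 1 / 2) →
    (1 / 2) * ∏ l ∈ Q, (1 - g l) ≤ ∑ T ∈ F, (-1 : ℝ) ^ T.card * ∏ l ∈ T, g l

/-- the density of the `m` such that all `l ∈ T` divide `ff (a + P m) y` -/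
def gg (P a y : ℕ) (T : Finset ℕ) : ℝ := ∏ l ∈ T, ((SS P a y l).card : ℝ) / l

/-- all `l ∈ T` divide -/
def Dv (T : Finset ℕ) (n y : ℤ) : Prop := ∀ l ∈ T, (l : ℤ) ∣ ff n y

open Classical in
/-- the sum of the weights -/
def WS (F : Finset (Finset ℕ)) (n y : ℤ) : ℝ := ∑ T ∈ F, (-1 : ℝ) ^ T.card * (if Dv T n y then 1 else 0)

/-- its mean value -/
def GG (F : Finset (Finset ℕ)) (P a y : ℕ) : ℝ := ∑ T ∈ F, (-1 : ℝ) ^ T.card * gg P a y T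

/-- the density for `y` -/
def VW (F : Finset (Finset ℕ)) (p z P a y : ℕ) : ℝ := VV p z P a y * GG F P a y

/-- the density for the pair `y`, `y'` -/
def VD (p z P a y y' : ℕ) : ℝ := ∏ l ∈ QQ p z, (1 - ((SS P a y l ∪ SS P a y' l).card : ℝ) / l)

open Classical in
/-- the weighted number of the good `j` -/
def XW (F : Finset (Finset ℕ)) (A : ℝ) (p z w P a r J m : ℕ) : ℝ :=
  ∑ j ∈ (TT A p w P r J).filter (fun j : ℕ => Sf p z ((a : ℤ) + P * m) ((r + P * j : ℕ) : ℤ)),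
    (VW F p z P a (r + P * j))⁻¹ * WS F ((a : ℤ) + P * m) ((r + P * j : ℕ) : ℤ)

/-- the sieve with the relative error `ε / B ^ K` -/
def SvP (ε : ℝ) (K B : ℕ) : Prop := ∀ z M : ℕ, 2 ≤ z → ∀ (Q T : Finset ℕ) (S : ℕ → Finset ℕ),
  (∀ l ∈ Q, l.Prime ∧ 12 ≤ l ∧ l ≤ z ∧ (S l).card ≤ 6) → (∀ l ∈ T, l.Prime) → Disjoint Q T → (∀ l ∈ Q ∪ T, ∀ s ∈ S l, s < l) →
  |(((Icc 1 M).filter (fun m : ℕ => (∀ l ∈ Q, m % l ∉ S l) ∧ ∀ l ∈ T, m % l ∈ S l)).card : ℝ) -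
      M * ((∏ l ∈ Q, (1 - ((S l).card : ℝ) / l)) * ∏ l ∈ T, ((S l).card : ℝ) / l)| ≤
    ε / (B : ℝ) ^ K * (M * ((∏ l ∈ Q, (1 - ((S l).card : ℝ) / l)) * ∏ l ∈ T, ((S l).card : ℝ) / l)) + (z : ℝ) ^ B * ∏ l ∈ T, (l : ℝ)

/-- (FLQ, no hypotheses; `import Pool.Agent.Helper18.TR.Final`.) The fundamental lemma with the relative error `ε / B ^ K`. PROOF. `pf_FLmain` in `Pool/Agent/Helper18/TR/FM.lean`, copied with another choice of the even number `b`: instead of `.. ≤ η` with `η = η(ε)` take `b` so large that `exp (2 L) * (L ^ (b + 1) / (b + 1)!) * 2 ≤ η'`, `η' = ε' / 2`,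
`ε' = min 1 (ε / (2 b + 6) ^ K)` (so `exp η' ≤ 1 + ε'` and `η' exp η' ≤ ε'`); this holds for large `b` as `L ^ b / b!` decreases faster than any power of `b` (e.g. `FloorSemiring.tendsto_pow_div_factorial_atTop (2 * L)`, and `(2 b + 6) ^ K / 2 ^ b` tends to `0`). Then `pf_FL` in `Pool/Agent/Helper32/TR/FL.lean` with this `b` and
`B = 2 b + 6` (`pf_Level` in `Pool/Agent/Helper96/TR/LV.lean`: its witness is `2 * b + 6`; copy it, or extract the bound); `bonf` is in `Pool/Agent/Helper18/TR/Final.lean`. -/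
def StFLQ : Prop := ∀ (κ ε : ℝ) (K : ℕ), 0 < κ → 0 < ε → ∃ B : ℕ, 1 ≤ B ∧ ∀ w : ℕ, 2 ≤ w →
  ∀ Q : Finset ℕ, (∀ p ∈ Q, p.Prime ∧ p ≤ w) → ∀ g : ℕ → ℝ,
  (∀ p ∈ Q, 0 ≤ g p ∧ g p ≤ κ / p ∧ g p ≤ 1 / 2) →
  ∀ (α : Type) (A : Finset α) (E : ℕ → α → Prop) [∀ p, DecidablePred (E p)] (N R : ℝ), 0 ≤ N → 0 ≤ R →
  (∀ T ⊆ Q, ∏ p ∈ T, p ≤ w ^ B →
    |((A.filter (fun a => ∀ p ∈ T, E p a)).card : ℝ) - N * ∏ p ∈ T, g p| ≤ R) →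
  |((A.filter (fun a => ∀ p ∈ Q, ¬ E p a)).card : ℝ) - N * ∏ p ∈ Q, (1 - g p)| ≤
    ε / (B : ℝ) ^ K * (N * ∏ p ∈ Q, (1 - g p)) + (w : ℝ) ^ B * R

/-- (SVQ, assume `hF : StFLQ`.) PROOF. Model `Pool/Agent/Helper1/LP/M_SV6.lean`. FLQ with `κ = 6`, `ε / 2 ^ K`, giving `B'`; `B = 2 B'`. Apply it to the set `A` of the `m ∈ Icc 1 M` with `m % l ∈ S l` for all `l ∈ T`, `N = M ∏_T |S l| / l`, `g l = |S l| / l`, `E l m : m % l ∈ S l`, `R = z ^ B' ∏_T l`: for `T'' ⊆ Q` the number of the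
`m` with `m % l ∈ S l` for all `l ∈ T ∪ T''` (`Pool.Agent.Helper9.SU.cntT_ALL`) is `M ∏_{T ∪ T''} |S l| / l` up to `∏_{T ∪ T''} |S l| ≤ ∏_T l ∏_{T''} l`. -/
def StSVQ : Prop := ∀ (ε : ℝ) (K : ℕ), 0 < ε → ∃ B : ℕ, 1 ≤ B ∧ SvP ε K B

/-- (WTS, no hypotheses; `import Pool.Agent.Helper18.TR.Final`.) PROOF. `flMain` with `κ = 3`, `ε = 1 / 2` gives `b`, `pf_Level b` gives the level; `F = fam0 w b Q ∪ fam1 w b Q`; `fl_subset`, `fl_card` (`Pool/Agent/Helper32/TR/FL.lean`), and `bonf` with `g p = if E p then 1 else 0` (`prod_ite_zero`, see `fl_count`, `fl_count'`). -/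
def StWTS : Prop := ∃ B : ℕ, 1 ≤ B ∧ ∀ w : ℕ, 2 ≤ w → ∀ Q : Finset ℕ, (∀ l ∈ Q, l.Prime ∧ l ≤ w) → ∃ F : Finset (Finset ℕ), Wt B w Q F

/-- (MAS, assume `hM : StMT`.) PROOF. `∑_{l ∈ QQ z w} 1 / l ≤ log log w - log log z + 2 C₀ ≤ log (2 B) + 2 C₀`, as `log w ≤ B log (z + 1) ≤ 2 B log z`. `1 + x ≤ e ^ x`; `1 - x ≥ e ^ (- x - x ^ 2)` for `0 ≤ x ≤ 1 / 2` (`exp_low` in `Pool/Agent/Helper6/LP/M_VLP.lean`), `∑ 9 / l ^ 2 ≤ 9`. -/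
def StMAS : Prop := ∃ C : ℝ, 1 ≤ C ∧ ∀ z w B : ℕ, 24 ≤ z → z ≤ w → 1 ≤ B → w < (z + 1) ^ B →
  ∏ l ∈ QQ z w, (1 + 3 / (l : ℝ)) ≤ C * (B : ℝ) ^ 3 ∧ ∏ l ∈ QQ z w, (1 + 12 / (l : ℝ)) ≤ C * (B : ℝ) ^ 12 ∧
  1 ≤ C * (B : ℝ) ^ 3 * ∏ l ∈ QQ z w, (1 - 3 / (l : ℝ))

open Classical in
/-- (CMB, no hypotheses.) Sums over families of sets. PROOF. (1) `∏_Q (1 + g) = ∑_{T ⊆ Q} ∏_T g` (`prod_one_add`, or `prod_add`). (2) For `U = T ∪ T'` there are at most `4 ^ |U|` pairs `T, T' ⊆ U`; `∑_{U ⊆ Q} ∏_U (4 g) = ∏_Q (1 + 4 g)`. (3) Such a pair has a common `l`: `∑_l ∑_{T ∋ l} ∑_{T' ∋ l}`, and `∑_{l ∈ T ⊆ Q} ∏_T g ≤ g l ∏_Q (1 + g)`. -/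
def StCMB : Prop := ∀ (Q : Finset ℕ) (F : Finset (Finset ℕ)) (g h : ℕ → ℝ), (∀ l ∈ Q, 0 ≤ g l ∧ 0 ≤ h l) → (∀ T ∈ F, T ⊆ Q) →
  ∑ T ∈ F, ∏ l ∈ T, g l ≤ ∏ l ∈ Q, (1 + g l) ∧
  ∑ T ∈ F, ∑ T' ∈ F, ∏ l ∈ T ∪ T', g l ≤ ∏ l ∈ Q, (1 + 4 * g l) ∧
  ∑ T ∈ F, ∑ T' ∈ F.filter (fun T' => ¬ Disjoint T T'), (∏ l ∈ T, g l) * ∏ l ∈ T', h l ≤
    (∑ l ∈ Q, g l * h l) * ((∏ l ∈ Q, (1 + g l)) * ∏ l ∈ Q, (1 + h l))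

open Classical in
/-- (ONQ, assume `hL : StLOP`.) One `y`. PROOF. `l ∣ ff (a + P m) y` iff `m % l ∈ SS P a y l`; `SvP` with `Q = QQ p z`, `T`, `S l = SS P a y l` (`|S l| ≤ 3` by LOP and `js ≤ 1`, for the `l > p`, `l ∤ P`). Model: `Pool/Agent/Helper40/LP/M_ONE.lean`. -/
def StONQ : Prop := ∀ (ε : ℝ) (K B : ℕ), SvP ε K B → ∀ p P a y z w M : ℕ, ∀ T ⊆ QQ z w, 24 ≤ p → p ≤ z →
  (∀ l : ℕ, l.Prime → l ∣ P → l ≤ p) → 2 ≤ y →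
  |(((Icc 1 M).filter (fun m : ℕ => Sf p z ((a : ℤ) + P * m) y ∧ Dv T ((a : ℤ) + P * m) y)).card : ℝ) - M * (VV p z P a y * gg P a y T)| ≤
    ε / (B : ℝ) ^ K * (M * (VV p z P a y * gg P a y T)) + (z : ℝ) ^ B * ∏ l ∈ T, (l : ℝ)

open Classical in
/-- (PRQ, assume `hL : StLOP`.) Two values of `y`. PROOF. (1) `SvP` with `Q = QQ p z`, `S l = SS P a y l ∪ SS P a y' l` for these `l`, and `T ∪ T'`, `S l = SS P a y l` for `l ∈ T`, `= SS P a y' l` for `l ∈ T'`. (2) If `l ∈ T ∩ T'` then `l > z ≥ DD y y' ≥ 1`, so `l ∤ DD y y'`, the classes are disjoint (LOP) and there is no `m`.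
(3) As in PRP of LP, factor by factor: `Pool/Agent/Helper89/LP/M_PRP.lean`. -/
def StPRQ : Prop := ∀ (ε : ℝ) (K B : ℕ), SvP ε K B → ∀ p P a y y' z w M : ℕ, ∀ T ⊆ QQ z w, ∀ T' ⊆ QQ z w, 24 ≤ p → p ≤ z →
  (∀ l : ℕ, l.Prime → l ∣ P → l ≤ p) → 2 ≤ y → 2 ≤ y' → 1 ≤ DD y y' → DD y y' ≤ z →
  (Disjoint T T' → |(((Icc 1 M).filter (fun m : ℕ => (Sf p z ((a : ℤ) + P * m) y ∧ Dv T ((a : ℤ) + P * m) y) ∧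
      Sf p z ((a : ℤ) + P * m) y' ∧ Dv T' ((a : ℤ) + P * m) y')).card : ℝ) - M * (VD p z P a y y' * (gg P a y T * gg P a y' T'))| ≤
    ε / (B : ℝ) ^ K * (M * (VD p z P a y y' * (gg P a y T * gg P a y' T'))) + (z : ℝ) ^ B * ((∏ l ∈ T, (l : ℝ)) * ∏ l ∈ T', (l : ℝ))) ∧
  (¬ Disjoint T T' → (Icc 1 M).filter (fun m : ℕ => Dv T ((a : ℤ) + P * m) y ∧ Dv T' ((a : ℤ) + P * m) y') = ∅) ∧
  0 ≤ VD p z P a y y' ∧ VD p z P a y y' ≤ VV p z P a y * VV p z P a y' * ∏ l ∈ (QQ p z).filter (fun l => l ∣ DD y y'), (1 + 8 / (l : ℝ))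

open Classical in
/-- (GGL, assume `hM : StMAS`, `hL : StLOP`, `hC : StCMB`.) PROOF. For `l ∈ QQ z w` (or `QQ p w`; `l > 24`, `l ∤ P`) the number `g l = |SS P a y l| / l` is at most `3 / l ≤ 1 / 2` (LOP). `GG ≥ (1 / 2) ∏ (1 - g l) ≥ (1 / 2) ∏ (1 - 3 / l)` (last part of `Wt`), `VV p w = VV p z ∏_{QQ z w} (1 - g l)`. The sums: CMB with this `g`, and
`∏ (1 + g l) ≤ ∏ (1 + 3 / l)`, `∏ (1 + 4 g l) ≤ ∏ (1 + 12 / l)`; `∑_{l ∈ QQ z w} 9 / l ^ 2 ≤ 9 / z`. -/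
def StGGL : Prop := ∃ C : ℝ, 1 ≤ C ∧ ∀ (p P a z w B B₁ : ℕ) (F : Finset (Finset ℕ)), 24 ≤ p → p ≤ z → z ≤ w → 1 ≤ B → w < (z + 1) ^ B →
  (∀ l : ℕ, l.Prime → l ∣ P → l ≤ p) → Wt B₁ w (QQ z w) F →
  (∀ y : ℕ, 2 ≤ y → 0 < VV p z P a y ∧ 1 ≤ C * (B : ℝ) ^ 3 * GG F P a y ∧ VV p w P a y ≤ 2 * VW F p z P a y ∧
    (∀ T ∈ F, 0 ≤ gg P a y T) ∧ ∑ T ∈ F, gg P a y T ≤ C * (B : ℝ) ^ 3 ∧ ∑ T ∈ F, ∑ T' ∈ F, gg P a y (T ∪ T') ≤ C * (B : ℝ) ^ 12) ∧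
  ∀ y y' : ℕ, 2 ≤ y → 2 ≤ y' → ∑ T ∈ F, ∑ T' ∈ F.filter (fun T' => ¬ Disjoint T T'), gg P a y T * gg P a y' T' ≤ C * (B : ℝ) ^ 6 / z

/-- (MOR, assume `hO : StONQ`, `hG : StGGL`.) The first moment. `τ = |TT|`, `V = VW`. PROOF. `∑_m XW = ∑_{j ∈ TT} V_j⁻¹ ∑_{T ∈ F} (-1) ^ |T| #{m : Sf, Dv T} ≥ ∑_j V_j⁻¹ (M V_j - (η / B ^ 12) M VV_j ∑_T gg T - ∑_T z ^ B ∏_T l)`; `VV_j / V_j = 1 / GG ≤ C B ^ 3`, `∑ gg ≤ C B ^ 3`, `z ^ B ≤ w`, `∏_T l ≤ w ^ B₁`, `|F| ≤ w ^ B₁`,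
`V_j⁻¹ ≤ 2 Λ` (GGL: `VV p w ≤ 2 V_j`). Model: `Pool/Agent/Helper6/LP/M_MOA.lean`. -/
def StMOR : Prop := ∃ C : ℝ, 1 ≤ C ∧ ∀ (η : ℝ) (B B₁ : ℕ), 0 < η → 1 ≤ B → SvP η 12 B → ∀ (A Λ : ℝ) (p P a r J M z w : ℕ) (F : Finset (Finset ℕ)),
  24 ≤ p → p ≤ z → z ^ B ≤ w → w < (z + 1) ^ B → (∀ l : ℕ, l.Prime → l ∣ P → l ≤ p) → Wt B₁ w (QQ z w) F → 1 ≤ Λ →
  (∀ j ∈ TT A p w P r J, 1 ≤ Λ * VV p w P a (r + P * j)) →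
  (1 - C * η) * (M * ((TT A p w P r J).card : ℝ)) - 2 * ((TT A p w P r J).card * Λ * (w : ℝ) ^ (2 * B₁ + 1)) ≤
    ∑ m ∈ Icc 1 M, XW F A p z w P a r J m

open Classical in
/-- (DIA, assume `hO : StONQ`, `hG : StGGL`.) The diagonal. PROOF. `WS ^ 2 = ∑_{T, T'} ± [Dv T][Dv T'] ≤ ∑_{T, T'} [Dv (T ∪ T')]`, so the sum is at most `∑_{T, T' ∈ F} (2 M VV gg (T ∪ T') + z ^ B ∏_{T ∪ T'} l)` (ONQ, `η / B ^ 12 ≤ 1`) `≤ 2 M VV C B ^ 12 + w ^ (2 B₁) w w ^ (2 B₁)`. -/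
def StDIA : Prop := ∃ C : ℝ, 1 ≤ C ∧ ∀ (η : ℝ) (B B₁ : ℕ), 0 < η → η ≤ 1 → 1 ≤ B → SvP η 12 B → ∀ (p P a y M z w : ℕ) (F : Finset (Finset ℕ)),
  24 ≤ p → p ≤ z → z ^ B ≤ w → w < (z + 1) ^ B → (∀ l : ℕ, l.Prime → l ∣ P → l ≤ p) → 2 ≤ y → Wt B₁ w (QQ z w) F →
  ∑ m ∈ (Icc 1 M).filter (fun m : ℕ => Sf p z ((a : ℤ) + P * m) y), WS F ((a : ℤ) + P * m) y ^ 2 ≤
    C * (B : ℝ) ^ 12 * (M * VV p z P a y) + (w : ℝ) ^ (4 * B₁ + 1)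

open Classical in
/-- (OFF, assume `hP : StPRQ`, `hG : StGGL`.) One pair. PROOF. The left side is `∑_{T, T' ∈ F} (-1) ^ (|T| + |T'|) #{m : Sf, Dv T; Sf, Dv T'}`; the pairs with `¬ Disjoint T T'` contribute nothing; for the others PRQ: the sum is at most `M VD (∑_{disjoint} ± gg gg' + (η / B ^ 12) ∑ gg gg') + w ^ (2 B₁) w w ^ (2 B₁)`, and
`∑_{disjoint} ± gg gg' ≤ GG GG' + ∑_{not disjoint} gg gg' ≤ GG GG' + C B ^ 6 / z`. As `1 ≤ C B ^ 3 GG` (and `GG'`) and `B ^ 12 ≤ η z`: `C B ^ 6 / z ≤ C ^ 3 η GG GG'`, and `(η / B ^ 12) (C B ^ 3) ^ 2 ≤ C ^ 4 η GG GG'`. Last, `VD ≤ VV VV' ∏ ..`. -/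
def StOFF : Prop := ∃ C : ℝ, 1 ≤ C ∧ ∀ (η : ℝ) (B B₁ : ℕ), 0 < η → η ≤ 1 → 1 ≤ B → SvP η 12 B → ∀ (p P a y y' M z w : ℕ) (F : Finset (Finset ℕ)),
  24 ≤ p → p ≤ z → z ^ B ≤ w → w < (z + 1) ^ B → (∀ l : ℕ, l.Prime → l ∣ P → l ≤ p) → 2 ≤ y → 2 ≤ y' → 1 ≤ DD y y' → DD y y' ≤ z →
  (B : ℝ) ^ 12 ≤ η * z → Wt B₁ w (QQ z w) F →
  ∑ m ∈ (Icc 1 M).filter (fun m : ℕ => Sf p z ((a : ℤ) + P * m) y ∧ Sf p z ((a : ℤ) + P * m) y'),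
      WS F ((a : ℤ) + P * m) y * WS F ((a : ℤ) + P * m) y' ≤
    (1 + C * η) * (M * (VW F p z P a y * VW F p z P a y') * ∏ l ∈ (QQ p z).filter (fun l => l ∣ DD y y'), (1 + 8 / (l : ℝ))) +
      (w : ℝ) ^ (4 * B₁ + 1)

/-- (DDB, no hypotheses.) PROOF. `|y - y'| ≤ K`, `0 < rA ≤ 7 K ^ 4` (`rA y z ≥ y ^ 2 - y (y + 1) + (y + 1) ^ 2`), `0 < rB ≤ 8 K ^ 3`. See `Pool/Agent/Helper74/LP/M_GAP.lean`. -/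
def StDDB : Prop := ∀ K y y' : ℕ, 1 ≤ y → 1 ≤ y' → y ≤ K → y' ≤ K → y ≠ y' → 1 ≤ DD y y' ∧ DD y y' ≤ 400 * K ^ 13

/-- (MSR, assume `hD : StDIA`, `hO : StOFF`, `hG : StGGL`, `hB : StDDB`, `hP : StGAP`.) The second moment. PROOF. `∑_m XW ^ 2 = ∑_{j, j' ∈ TT} V_j⁻¹ V_j'⁻¹ ∑_{m : Sf, Sf'} WS WS'`. `j = j'`: DIA, and `V_j⁻² VV_j = V_j⁻¹ GG_j⁻¹ ≤ 2 Λ C B ^ 3`, `V_j⁻² ≤ 4 Λ ^ 2`: at most `2 C ^ 2 B ^ 15 M τ Λ + 4 τ Λ ^ 2 w ^ (4 B₁ + 1)`.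
`j ≠ j'`: OFF (`DD` by DDB with `K = P (J + 1)`): `(1 + C η) M ∑_{j'} ∑_{j ≠ j'} corr + 4 τ ^ 2 Λ ^ 2 w ^ (4 B₁ + 1)`, and as in LP `∑_{j ∈ TT, j ≠ j'} corr ≤ τ + ∑_{j ≤ J, j ≠ j'} (corr - 1) ≤ τ + η J + 1` by GAP with `η` (its `w` is `z`). Model: `Pool/Agent/Helper33/LP/M_MOB.lean`. -/
def StMSR : Prop := ∃ C : ℝ, 1 ≤ C ∧ ∀ (η : ℝ) (B B₁ : ℕ), 0 < η → η ≤ 1 → 1 ≤ B → SvP η 12 B → ∃ p₁ : ℕ, 24 ≤ p₁ ∧ ∀ p P : ℕ, p₁ ≤ p → 1 ≤ P →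
  (∀ l : ℕ, l.Prime → l ∣ P → l ≤ p) → ∃ J₀ : ℕ, ∀ (A Λ : ℝ) (J a r z w M : ℕ) (F : Finset (Finset ℕ)), J₀ ≤ J → 1 ≤ r → r ≤ P → p ≤ z →
    400 * (P * (J + 1)) ^ 13 ≤ z → (B : ℝ) ^ 12 ≤ η * z → z ^ B ≤ w → w < (z + 1) ^ B → Wt B₁ w (QQ z w) F → 1 ≤ Λ →
    (∀ j ∈ TT A p w P r J, 1 ≤ Λ * VV p w P a (r + P * j)) →
    ∑ m ∈ Icc 1 M, XW F A p z w P a r J m ^ 2 ≤
      (1 + C * η) * (M * (((TT A p w P r J).card : ℝ) * ((TT A p w P r J).card + η * J + 1))) +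
        C * (B : ℝ) ^ 15 * (M * ((TT A p w P r J).card : ℝ) * Λ) + 8 * (((TT A p w P r J).card : ℝ) ^ 2 * Λ ^ 2 * (w : ℝ) ^ (4 * B₁ + 1))

/-- (XPX, no hypotheses.) PROOF. Otherwise some term of `XW` is positive: `j ∈ TT` with `Sf p z` and `0 < WS`; by the third part of `Wt` (`E l : l ∣ ff ..`) no `l ∈ QQ z w` divides, so `Sf p w` holds, and `XX ≥ VV_j⁻¹ > 0` (all terms of `XX` are `≥ 0`). -/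
def StXPX : Prop := ∀ (A Λ : ℝ) (p z w P a r J m B₁ : ℕ) (F : Finset (Finset ℕ)), p ≤ z → z ≤ w → Wt B₁ w (QQ z w) F → 1 ≤ Λ →
  (∀ j ∈ TT A p w P r J, 1 ≤ Λ * VV p w P a (r + P * j)) → (∀ j ∈ TT A p w P r J, 0 < VW F p z P a (r + P * j)) →
  XX A p w P a r J m = 0 → XW F A p z w P a r J m ≤ 0

open Classical in
/-- (CHU, assume `hM : StMOR`, `hS : StMSR`, `hG : StGGL`, `hX : StXPX`.) Chebyshev. PROOF. If `XX = 0` then `XW ≤ 0` and `(XW - τ) ^ 2 ≥ τ ^ 2`. So `#{XX = 0} τ ^ 2 ≤ ∑ (XW - τ) ^ 2 = ∑ XW ^ 2 - 2 τ ∑ XW + M τ ^ 2`, which by MOR, MSR (common constant `C`), `J ≤ 2 τ`, `η ≤ 1` is at most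
`M τ ^ 2 ((1 + C η)(1 + 2 η + 1 / τ) - 2 (1 - C η) + 1) + C B ^ 15 M τ Λ + 12 τ ^ 2 Λ ^ 2 w ^ (4 B₁ + 1) ≤ M τ ^ 2 (7 C η + 2 C / τ) + C B ^ 15 M τ Λ + 12 ..`; `τ ≥ J / 2 > 0`, `2 C / τ ≤ 4 C B ^ 15 Λ / J`. (`0 < VW` by GGL: `VV p w ≤ 2 VW`.) -/
def StCHU : Prop := ∃ C : ℝ, 1 ≤ C ∧ ∀ (η : ℝ) (B B₁ : ℕ), 0 < η → η ≤ 1 → 1 ≤ B → SvP η 12 B → ∃ p₁ : ℕ, 24 ≤ p₁ ∧ ∀ p P : ℕ, p₁ ≤ p → 1 ≤ P →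
  (∀ l : ℕ, l.Prime → l ∣ P → l ≤ p) → ∃ J₀ : ℕ, ∀ (A Λ : ℝ) (J a r z w M : ℕ) (F : Finset (Finset ℕ)), J₀ ≤ J → 1 ≤ J → 1 ≤ r → r ≤ P → p ≤ z →
    400 * (P * (J + 1)) ^ 13 ≤ z → (B : ℝ) ^ 12 ≤ η * z → z ^ B ≤ w → w < (z + 1) ^ B → Wt B₁ w (QQ z w) F → 1 ≤ Λ →
    (∀ j ∈ TT A p w P r J, 1 ≤ Λ * VV p w P a (r + P * j)) → (J : ℝ) ≤ 2 * ((TT A p w P r J).card : ℝ) →
    (((Icc 1 M).filter (fun m : ℕ => XX A p w P a r J m = 0)).card : ℝ) ≤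
      C * η * M + C * (B : ℝ) ^ 15 * (M * Λ / J) + 12 * (Λ ^ 2 * (w : ℝ) ^ (4 * B₁ + 1))

open Classical in
/-- (CHR, assume `h : StCHU`, `hW : StWTS`, `hS : StSVQ`, `hT : StTGO`, `hV : StVLP`.) Choice of the parameters. PROOF. `B₁` from WTS, `A` from TGO, `c` from VLP, `δ = 1 / (8 B₁ + 2)`, `w = 2 ^ I - 1 ≤ M ^ δ`, so `w ^ (4 B₁ + 1) ≤ M ^ (1/2)`. `C'` from CHU, `η = min 1 (ε / (4 C'))`, `B` from SVQ (`η`, `12`), `C = 4 C' B ^ 15 e ^ A / (c ε)`,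
`p₁ ≥ 32`. `z` is the largest integer with `z ^ B ≤ w` (`z ≥ M ^ (δ / (2 B))` for large `M`, so `p ≤ z`, `400 (P (J + 1)) ^ 13 ≤ z`, `B ^ 12 ≤ η z` for large `M`, as `J ≤ C (log M) ^ 2 + 1`), `F` from WTS with `Q = QQ z w`. `Λ = e ^ A (log w) ^ 2 / c` (`≥ 1` for large `M`; `1 ≤ Λ VV` by VLP, `|cs| ≤ A` on `TT`), `Λ ≤ (e ^ A / c) (log M) ^ 2`,
so `C' B ^ 15 Λ / J ≤ ε / 4`. TGO with `c₁ = C / 4` (`I ≤ 2 log M`, `J ≥ C (log M) ^ 2 ≥ c₁ I ^ 2`, `J ≤ I ^ 3` for large `M`, as `2 ^ (I + 1) > M ^ δ`): `J ≤ 2 τ`. Last, `12 Λ ^ 2 M ^ (1/2) ≤ (ε / 4) M` for large `M`. Model: `Pool/Agent/Helper29/LP/M_CHP.lean`. -/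
def StCHR : Prop := ∃ A δ : ℝ, 0 < A ∧ 0 < δ ∧ δ ≤ 1 ∧ ∀ ε : ℝ, 0 < ε → ∃ C : ℝ, 0 < C ∧ ∃ p₁ : ℕ, 32 ≤ p₁ ∧ ∀ p P : ℕ, p₁ ≤ p →
  1 ≤ P → (∀ l : ℕ, l.Prime → l ∣ P → l ≤ p) → ∃ M₀ : ℕ, ∀ M I J a r : ℕ, M₀ ≤ M → (2 : ℝ) ^ I ≤ (M : ℝ) ^ δ →
    (M : ℝ) ^ δ < 2 ^ (I + 1) → C * Real.log M ^ 2 ≤ J → (J : ℝ) ≤ C * Real.log M ^ 2 + 1 → 1 ≤ r → r ≤ P →
    (((Icc 1 M).filter (fun m : ℕ => XX A p (2 ^ I - 1) P a r J m = 0)).card : ℝ) ≤ ε * M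

end Pool.Agent.Helper6.LPA
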